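import Mathlib
import Pool.Agent.Helper34.BadPartition

/-!
# MP_c8ecde_al, Q1: a quadratic lower bound, for every group with a free quotient of infinite rank

Own form beside the frozen negation `S03022`. Let `H` be any group (in any universe) with a
surjective homomorphism onto the free group of countably infinite rank, for example this free group
itself. For all `n ≥ 1` and `m ≤ (3/2 - √2) n²` there is a partition of `H` into `n` nonempty cells
such that `F A A⁻¹ F⁻¹ ≠ H` for every cell `A` and every `F ⊆ H` with at most `m` elements. For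
`n ≥ 12` one may take `m = n`, which is the negated form of Q1.
-/

set_option autoImplicit false

open scoped Pointwise

namespace Pool.Agent.Results.MP_c8ecde_al.Full

open Pool.Agent.Helper34.BadPartition in
/-- The bad colouring can be chosen surjective. -/
theorem exists_bad_surjective {c m : ℕ} (hc : 0 < c)
    (hm : Real.sqrt m ≤ c * (1 - Real.sqrt 2 / 2)) :
    ∃ col : FreeGroup ℕ → Fin c, Function.Surjective col ∧
      ∀ X : Fin c, ∀ F : Finset (FreeGroup ℕ), F.card ≤ m →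
        ∃ g : FreeGroup ℕ, ∀ x ∈ F, ∀ y ∈ F, ∀ a b : FreeGroup ℕ, col a = X → col b = X →
          x * a * b⁻¹ * y⁻¹ ≠ g := by
  classical
  obtain ⟨col, hcol⟩ := exists_bad_colouring hc hm
  have hinf : Infinite (FreeGroup ℕ) := Infinite.of_injective _ FreeGroup.of_injective
  have : Finite (Fin c) := inferInstance
  obtain ⟨X0, hX0⟩ := Finite.exists_infinite_fiber col
  let s : ℕ ↪ (col ⁻¹' {X0}) := Infinite.natEmbedding _
  let t : Fin c → FreeGroup ℕ := fun e => (s (e : ℕ)).1
  have ht : Function.Injective t := fun e e' h => Fin.ext (s.injective (Subtype.ext h))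
  have htX : ∀ e, col (t e) = X0 := fun e => (s (e : ℕ)).2
  -- the recoloured elements
  let col' : FreeGroup ℕ → Fin c := fun g =>
    if h : ∃ e : Fin c, (∀ g', col g' ≠ e) ∧ t e = g then h.choose else col g
  have hsub : ∀ X : Fin c, ∃ Y : Fin c, ∀ g, col' g = X → col g = Y := by
    intro X
    by_cases hX : ∀ g', col g' ≠ X
    · refine ⟨X0, fun g hg => ?_⟩
      by_cases h : ∃ e : Fin c, (∀ g', col g' ≠ e) ∧ t e = g
      · rw [← h.choose_spec.2]
        exact htX _
      · exfalso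
        simp only [col', dif_neg h] at hg
        exact hX g hg
    · refine ⟨X, fun g hg => ?_⟩
      by_cases h : ∃ e : Fin c, (∀ g', col g' ≠ e) ∧ t e = g
      · exfalso
        simp only [col', dif_pos h] at hg
        exact hX (hg ▸ h.choose_spec.1)
      · simpa only [col', dif_neg h] using hg
  refine ⟨col', ?_, ?_⟩
  · intro e
    by_cases he : ∀ g', col g' ≠ e
    · refine ⟨t e, ?_⟩
      have h : ∃ e' : Fin c, (∀ g', col g' ≠ e') ∧ t e' = t e := ⟨e, he, rfl⟩
      simp only [col', dif_pos h]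
      exact ht h.choose_spec.2
    · push Not at he
      obtain ⟨g, hg⟩ := he
      by_cases heX : e = X0
      · refine ⟨t X0, ?_⟩
        have h : ¬ ∃ e' : Fin c, (∀ g', col g' ≠ e') ∧ t e' = t X0 := by
          rintro ⟨e', he', hte⟩
          have : e' = X0 := ht hte
          exact he' g (by rw [hg, heX, this])
        simp only [col', dif_neg h]
        rw [htX, heX]
      · refine ⟨g, ?_⟩
        have h : ¬ ∃ e' : Fin c, (∀ g', col g' ≠ e') ∧ t e' = g := by
          rintro ⟨e', _, rfl⟩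
          exact heX (by rw [← hg, htX])
        simp only [col', dif_neg h]
        exact hg
  · intro X F hF
    obtain ⟨Y, hY⟩ := hsub X
    obtain ⟨g, hg⟩ := hcol Y F hF
    exact ⟨g, fun x hx y hy a b ha hb => hg x hx y hy a b (hY a ha) (hY b hb)⟩

/-- The numerical condition. -/
theorem sqrt_le_of_le {n m : ℕ} (hm : (m : ℝ) ≤ (3 / 2 - Real.sqrt 2) * (n : ℝ) ^ 2) :
    Real.sqrt m ≤ n * (1 - Real.sqrt 2 / 2) := by
  have h2 : Real.sqrt 2 ^ 2 = 2 := Real.sq_sqrt (by norm_num)
  have h3 : Real.sqrt 2 ≤ 3 / 2 := by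
    rw [Real.sqrt_le_left (by norm_num)]
    norm_num
  have h0 : 0 ≤ (n : ℝ) * (1 - Real.sqrt 2 / 2) := mul_nonneg (by positivity) (by linarith)
  rw [Real.sqrt_le_left h0]
  refine hm.trans (le_of_eq ?_)
  have : ((n : ℝ) * (1 - Real.sqrt 2 / 2)) ^ 2 =
      (1 - Real.sqrt 2 + Real.sqrt 2 ^ 2 / 4) * (n : ℝ) ^ 2 := by ring
  rw [this, h2]
  ring

/-- **The negative answer to Q1, quantitative and for many groups.** -/
theorem main {H : Type*} [Group H] (π : H →* FreeGroup ℕ) (hπ : Function.Surjective π)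
    (n m : ℕ) (hn : 0 < n) (hm : (m : ℝ) ≤ (3 / 2 - Real.sqrt 2) * (n : ℝ) ^ 2) :
    ∃ A : Fin n → Set H,
      (∀ i, (A i).Nonempty) ∧ (∀ i j, i ≠ j → Disjoint (A i) (A j)) ∧ (⋃ i, A i) = Set.univ ∧
      ∀ (i : Fin n) (F : Set H), F.encard ≤ m → F * A i * (A i)⁻¹ * F⁻¹ ≠ Set.univ := by
  classical
  obtain ⟨col, hsurj, hcol⟩ := exists_bad_surjective hn (sqrt_le_of_le hm)
  refine ⟨fun i => {h | col (π h) = i}, ?_, ?_, ?_, ?_⟩
  · intro i
    obtain ⟨g, hg⟩ := hsurj i
    obtain ⟨h, rfl⟩ := hπ g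
    exact ⟨h, hg⟩
  · intro i j hij
    rw [Set.disjoint_left]
    intro x hx hx'
    exact hij (hx.symm.trans hx')
  · rw [Set.eq_univ_iff_forall]
    intro x
    exact Set.mem_iUnion.2 ⟨col (π x), rfl⟩
  · intro i F hF huniv
    have hfin : F.Finite := Set.finite_of_encard_le_coe hF
    have hcard : (hfin.toFinset.image π).card ≤ m := by
      refine Finset.card_image_le.trans ?_
      rw [hfin.encard_eq_coe_toFinset_card] at hF
      exact_mod_cast hF
    obtain ⟨g, hg⟩ := hcol i (hfin.toFinset.image π) hcard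
    obtain ⟨h, rfl⟩ := hπ g
    have hmem : h ∈ F * {h | col (π h) = i} * ({h | col (π h) = i})⁻¹ * F⁻¹ := by
      rw [huniv]; exact Set.mem_univ h
    obtain ⟨w, hw, y, hy, hwy⟩ := Set.mem_mul.1 hmem
    obtain ⟨u, hu, b, hb, hub⟩ := Set.mem_mul.1 hw
    obtain ⟨x, hx, a, ha, hxa⟩ := Set.mem_mul.1 hu
    have hy' : y⁻¹ ∈ F := hy
    have hb' : col (π b⁻¹) = i := hb
    have := hg (π x) (Finset.mem_image_of_mem _ (hfin.mem_toFinset.mpr hx))
      (π y⁻¹) (Finset.mem_image_of_mem _ (hfin.mem_toFinset.mpr hy')) (π a) (π b⁻¹) ha hb'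
    apply this
    rw [← hwy, ← hub, ← hxa]
    simp only [map_mul, map_inv, inv_inv]

theorem result :
    (∀ (H : Type*) [Group H] (π : H →* FreeGroup ℕ), Function.Surjective π →
      ∀ n m : ℕ, 0 < n → (m : ℝ) ≤ (3 / 2 - Real.sqrt 2) * (n : ℝ) ^ 2 →
      ∃ A : Fin n → Set H,
        (∀ i, (A i).Nonempty) ∧ (∀ i j, i ≠ j → Disjoint (A i) (A j)) ∧ (⋃ i, A i) = Set.univ ∧
        ∀ (i : Fin n) (F : Set H), F.encard ≤ m → F * A i * (A i)⁻¹ * F⁻¹ ≠ Set.univ) ∧
    (∀ n : ℕ, 12 ≤ n → ∃ A : Fin n → Set (FreeGroup ℕ),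
      (∀ i, (A i).Nonempty) ∧ (∀ i j, i ≠ j → Disjoint (A i) (A j)) ∧ (⋃ i, A i) = Set.univ ∧
      ∀ (i : Fin n) (F : Set (FreeGroup ℕ)), F.encard ≤ n →
        F * A i * (A i)⁻¹ * F⁻¹ ≠ Set.univ) := by
  refine ⟨fun H _ π hπ n m hn hm => main π hπ n m hn hm, fun n hn => ?_⟩
  refine main (MonoidHom.id _) Function.surjective_id n n (by omega) ?_
  have h2 : Real.sqrt 2 ≤ 17 / 12 := by
    rw [Real.sqrt_le_left (by norm_num)]
    norm_num
  have hn' : (12 : ℝ) ≤ n := by exact_mod_cast hn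
  nlinarith

end Pool.Agent.Results.MP_c8ecde_al.Full
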